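import Pool.Agent.helper62.W3.SpecA

set_option autoImplicit false

namespace Pool.Agent.EC

open Finset ArithmeticFunction
open Pool.Agent.CH (Win rgh dl eU Mo ClP ClB)
open Pool.Agent.helper85.BVP (trunc beta Mr Zr)
open GD (kp ks)

private theorem TRB_01 (N j : ℕ) : 0 ≤ fN N j ∧ fN N j ≤ 1 := by
  unfold fN tri
  constructor
  · exact le_max_left _ _
  · apply max_le (by norm_num)
    have h : 0 ≤ |Real.log j - vN N| / (1 / (N : ℝ)) :=
      div_nonneg (abs_nonneg _) (by positivity)
    linarith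

private theorem TRB_supp (N j : ℕ) (hN : 2 ≤ N) (h : fN N j ≠ 0) :
    N ^ 3 < j ∧ j < (N + 1) ^ 3 := by
  have hNr : (2 : ℝ) ≤ (N : ℝ) := by exact_mod_cast hN
  have hN0 : (0 : ℝ) < (N : ℝ) := by linarith
  have hlogN : 0 < Real.log N := Real.log_pos (by linarith)
  unfold fN tri at h
  have h1 : 0 < 1 - |Real.log j - vN N| / (1 / (N : ℝ)) := by
    by_contra hc
    push Not at hc
    exact h (max_eq_left hc)
  have h2 : |Real.log j - vN N| < 1 / (N : ℝ) := by
    have h3 : |Real.log j - vN N| / (1 / (N : ℝ)) < 1 := by linarith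
    rwa [div_lt_one (by positivity)] at h3
  rw [abs_lt] at h2
  unfold vN at h2
  obtain ⟨h3, h4⟩ := h2
  have e1 : 5 / (4 * (N : ℝ)) = 5 / 4 * (1 / (N : ℝ)) := by
    field_simp
  rw [e1] at h3 h4
  set y : ℝ := 1 / (N : ℝ) with hy
  have hy0 : 0 < y := by positivity
  have h5 : 3 * Real.log N < Real.log j := by linarith
  have h6 : Real.log j < 3 * Real.log N + 9 / 4 * y := by linarith
  have hj0 : 0 < j := by
    rcases Nat.eq_zero_or_pos j with h0 | h0
    · rw [h0] at h5
      simp only [Nat.cast_zero, Real.log_zero] at h5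
      linarith
    · exact h0
  have hjr : (0 : ℝ) < (j : ℝ) := by exact_mod_cast hj0
  constructor
  · have h7 : Real.log ((N : ℝ) ^ 3) < Real.log j := by
      rw [Real.log_pow]
      push_cast
      exact h5
    have h8 : (N : ℝ) ^ 3 < (j : ℝ) := (Real.log_lt_log_iff (by positivity) hjr).1 h7
    exact_mod_cast h8
  · have h9 : 9 / 4 * y ≤ 3 * Real.log (1 + y) := by
      have h10 := Real.le_log_one_add_of_nonneg hy0.le
      have h11 : 3 / 4 * y ≤ 2 * y / (y + 2) := by
        rw [le_div_iff₀ (by linarith)]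
        have h12 : y ≤ 1 / 2 := by
          rw [hy]
          exact one_div_le_one_div_of_le (by norm_num) hNr
        nlinarith
      linarith
    have h13 : Real.log ((N : ℝ) + 1) = Real.log N + Real.log (1 + y) := by
      rw [← Real.log_mul hN0.ne' (by positivity)]
      congr 1
      rw [hy]
      field_simp
    have h14 : Real.log j < Real.log (((N : ℝ) + 1) ^ 3) := by
      rw [Real.log_pow]
      push_cast
      rw [h13]
      linarith
    have h15 : (j : ℝ) < ((N : ℝ) + 1) ^ 3 := (Real.log_lt_log_iff hjr (by positivity)).1 h14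
    exact_mod_cast h15

theorem TRB : TRB_stmt := by
  refine ⟨TRB_01, fun N j hN h => TRB_supp N j hN h, ?_⟩
  intro N hN
  have hNr : (4 : ℝ) ≤ (N : ℝ) := by exact_mod_cast hN
  unfold XN
  constructor
  · exact Finset.sum_nonneg fun j _ => (TRB_01 N j).1
  · have h1 : ∑ j ∈ Win N, fN N j ≤ ∑ _j ∈ Win N, (1 : ℝ) :=
      Finset.sum_le_sum fun j _ => (TRB_01 N j).2
    refine h1.trans ?_
    rw [Finset.sum_const, nsmul_eq_mul, mul_one]
    have h2 : #(Win N) = 3 * N ^ 2 + 3 * N + 1 := by
      unfold Win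
      rw [Nat.card_Ioc]
      have : (N + 1) ^ 3 = N ^ 3 + (3 * N ^ 2 + 3 * N + 1) := by ring
      omega
    rw [h2]
    push_cast
    nlinarith

end Pool.Agent.EC
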